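import Pool.Agent.H380.BG.Stm

/-!
# The Rankin-Selberg limit from the continuation (`S_RSL`)
-/

set_option autoImplicit false

namespace Pool.Agent.H32.BG

open Complex MeasureTheory Filter Topology Set
open Pool.Agent.H380.BG
open Pool.Agent.H575.RD (la)
open scoped ENNReal Real

theorem zs_toReal (s : ℝ) : (zs s).toReal = ∑' N : ℕ, ((N : ℝ) + 1) ^ (-(2 * s)) := by
  unfold zs
  rw [ENNReal.tsum_toReal_eq (fun _ => ENNReal.ofReal_ne_top)]
  exact tsum_congr fun N => ENNReal.toReal_ofReal (by positivity)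

theorem zs_summ (s : ℝ) (hs : 1 ≤ s) : Summable fun N : ℕ => ((N : ℝ) + 1) ^ (-(2 * s)) := by
  have h := (summable_nat_add_iff 1).2 (Real.summable_nat_rpow.2 (show -(2 * s) < -1 by linarith))
  refine h.congr fun N => ?_
  push_cast
  rfl

theorem zs_ge (s : ℝ) (hs : 1 ≤ s) : 1 ≤ ∑' N : ℕ, ((N : ℝ) + 1) ^ (-(2 * s)) := by
  have h := (zs_summ s hs).le_tsum 0 (fun N _ => by positivity)
  simpa using h

theorem zs_tendsto : Tendsto (fun σ : ℝ => ∑' N : ℕ, ((N : ℝ) + 1) ^ (-(2 * (1 + σ)))) (𝓝[>] 0)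
    (𝓝 (∑' N : ℕ, ((N : ℝ) + 1) ^ (-(2 * 1 : ℝ)))) := by
  refine tendsto_tsum_of_dominated_convergence
    (bound := fun N : ℕ => ((N : ℝ) + 1) ^ (-(2 * 1 : ℝ))) (zs_summ 1 le_rfl) ?_ ?_
  · intro N
    have h0 : Continuous fun σ : ℝ => ((N : ℝ) + 1) ^ (-(2 * (1 + σ))) :=
      Continuous.rpow continuous_const (by fun_prop) (fun σ => Or.inl (by positivity))
    have h1 := (h0.tendsto 0).mono_left (nhdsWithin_le_nhds (s := Ioi (0 : ℝ)))
    simp only [add_zero] at h1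
    exact h1
  · filter_upwards [self_mem_nhdsWithin] with σ hσ N
    have hσ0 : 0 < σ := hσ
    rw [Real.norm_of_nonneg (by positivity)]
    have h1 : (0 : ℝ) ≤ N := Nat.cast_nonneg N
    exact Real.rpow_le_rpow_of_exponent_le (by linarith) (by linarith)

theorem rs_summ {s : ℝ} (h : rs s ≠ ⊤) : Summable fun n : ℕ => la n ^ 2 * (n : ℝ) ^ (-s) := by
  have h1 := ENNReal.summable_toReal h
  refine h1.congr fun n => ?_
  exact ENNReal.toReal_ofReal (by positivity)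

theorem rs_toReal (s : ℝ) : (rs s).toReal = ∑' n : ℕ, la n ^ 2 * (n : ℝ) ^ (-s) := by
  unfold rs
  rw [ENNReal.tsum_toReal_eq (fun _ => ENNReal.ofReal_ne_top)]
  exact tsum_congr fun n => ENNReal.toReal_ofReal (by positivity)

theorem t_RSL : S_RSL := by
  intro hrs hcoef hW
  obtain ⟨hb0, hbn, hlb, hser⟩ := hcoef
  obtain ⟨W, hW, w, hw, hW1⟩ := hW
  refine ⟨fun σ hσ => rs_summ (hrs (1 + σ) (by linarith)), ?_⟩
  have hz1 := zs_ge 1 le_rfl
  refine ⟨w / ∑' N : ℕ, ((N : ℝ) + 1) ^ (-(2 * 1 : ℝ)), by positivity, ?_⟩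
  have hWt : Tendsto (fun σ : ℝ => (W ((1 + σ : ℝ) : ℂ)).re) (𝓝[>] 0) (𝓝 w) := by
    have h0 : Continuous fun σ : ℝ => (W ((1 + σ : ℝ) : ℂ)).re :=
      Complex.continuous_re.comp (hW.diff.continuous.comp (by fun_prop))
    have h1 := (h0.tendsto 0).mono_left (nhdsWithin_le_nhds (s := Ioi (0 : ℝ)))
    simp only [add_zero, ofReal_one] at h1
    rw [hW1, ofReal_re] at h1
    exact h1
  have hlim := hWt.div zs_tendsto (by linarith)
  refine hlim.congr' ?_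
  filter_upwards [self_mem_nhdsWithin] with σ hσ
  have hσ0 : 0 < σ := hσ
  have hs : 1 < 1 + σ := by linarith
  have hz := zs_ge (1 + σ) hs.le
  obtain ⟨hsum, heq⟩ := hser (1 + σ) hs (hrs (1 + σ) hs)
  rw [zs_toReal, rs_toReal] at heq
  have h1 : W ((1 + σ : ℝ) : ℂ) =
      ((σ * ∑' n : ℕ, bb n * (n : ℝ) ^ (-(1 + σ)) : ℝ) : ℂ) := by
    rw [hW.ser _ (by simpa using hσ0), ofReal_mul, ofReal_tsum]
    congr 1
    · push_cast
      ring
    · refine tsum_congr fun n => ?_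
      rw [ofReal_mul, Complex.ofReal_cpow (Nat.cast_nonneg n)]
      push_cast
      rfl
  have h2 : (W ((1 + σ : ℝ) : ℂ)).re = σ * ∑' n : ℕ, bb n * (n : ℝ) ^ (-(1 + σ)) := by
    rw [h1, ofReal_re]
  change (W ((1 + σ : ℝ) : ℂ)).re / (∑' N : ℕ, ((N : ℝ) + 1) ^ (-(2 * (1 + σ)))) = _
  rw [h2, ← heq, div_eq_iff (by linarith)]
  ring

end Pool.Agent.H32.BG
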