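import Mathlib

set_option autoImplicit false

/-!
# The Stirling package for a function from a bound for its logarithmic derivative
-/

namespace Pool.Agent.H32.BG.Sto

open Complex MeasureTheory Filter Topology Set Metric

theorem hasDerivAt_log_norm {f : ℝ → ℂ} {f' : ℂ} {s : ℝ} (hf : HasDerivAt f f' s) (h0 : f s ≠ 0) :
    HasDerivAt (fun x => Real.log ‖f x‖) (f' / f s).re s := by
  have hre : HasDerivAt (fun x => (f x).re) f'.re s := Complex.reCLM.hasFDerivAt.comp_hasDerivAt s hf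
  have him : HasDerivAt (fun x => (f x).im) f'.im s := Complex.imCLM.hasFDerivAt.comp_hasDerivAt s hf
  have hn : 0 < normSq (f s) := normSq_pos.2 h0
  have h1 : HasDerivAt (fun x => normSq (f x)) (2 * ((f s).re * f'.re + (f s).im * f'.im)) s := by
    have h2 := (hre.mul hre).add (him.mul him)
    have e : (fun x => normSq (f x)) = fun x => (f x).re * (f x).re + (f x).im * (f x).im := by
      funext x
      rw [normSq_apply]
    rw [e]
    refine h2.congr_deriv ?_
    ring
  have h3 := (h1.log hn.ne').div_const 2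
  have e2 : (fun x => Real.log ‖f x‖) = fun x => Real.log (normSq (f x)) / 2 := by
    funext x
    have : ‖f x‖ = Real.sqrt (normSq (f x)) := rfl
    rw [this, Real.log_sqrt (normSq_nonneg _)]
  rw [e2]
  refine h3.congr_deriv ?_
  rw [Complex.div_re]
  field_simp

theorem seg (F : ℂ → ℂ) (hd : ∀ z : ℂ, 0 < z.im → DifferentiableAt ℂ F z)
    (h0 : ∀ z : ℂ, 0 < z.im → F z ≠ 0) {z u : ℂ} (hz : 0 < z.im) (hzu : 0 < (z + u).im) :
    ∃ c ∈ Ioo (0 : ℝ) 1, Real.log ‖F (z + u)‖ - Real.log ‖F z‖ =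
      (logDeriv F (z + (c : ℂ) * u) * u).re := by
  have hpos : ∀ s ∈ Icc (0 : ℝ) 1, 0 < (z + (s : ℂ) * u).im := by
    intro s hs
    have e : (z + (s : ℂ) * u).im = (1 - s) * z.im + s * (z + u).im := by
      simp
      ring
    rw [e]
    rcases eq_or_lt_of_le hs.1 with h | h
    · rw [← h]; simpa using hz
    · have := mul_pos h hzu
      have := mul_nonneg (sub_nonneg.2 hs.2) hz.le
      linarith
  have hder : ∀ s ∈ Icc (0 : ℝ) 1, HasDerivAt (fun s : ℝ => Real.log ‖F (z + (s : ℂ) * u)‖)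
      ((logDeriv F (z + (s : ℂ) * u) * u).re) s := by
    intro s hs
    have h1 := (hd _ (hpos s hs)).hasDerivAt
    have h2 : HasDerivAt (fun s : ℝ => (s : ℂ)) 1 s := Complex.ofRealCLM.hasDerivAt
    have h3 : HasDerivAt (fun s : ℝ => z + (s : ℂ) * u) u s := by
      simpa using (h2.mul_const u).const_add z
    have h4 : HasDerivAt (fun s : ℝ => F (z + (s : ℂ) * u)) (deriv F (z + (s : ℂ) * u) * u) s :=
      HasDerivAt.comp_of_eq (x := s) (h₂ := F) (h := fun s : ℝ => z + (s : ℂ) * u) h1 h3 rfl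
    refine (hasDerivAt_log_norm h4 (h0 _ (hpos s hs))).congr_deriv ?_
    rw [logDeriv_apply]
    congr 1
    ring
  obtain ⟨c, hc, h⟩ := exists_hasDerivAt_eq_slope (fun s : ℝ => Real.log ‖F (z + (s : ℂ) * u)‖)
    (fun s : ℝ => (logDeriv F (z + (s : ℂ) * u) * u).re) (zero_lt_one)
    (fun s hs => (hder s hs).continuousAt.continuousWithinAt)
    (fun s hs => hder s ⟨hs.1.le, hs.2.le⟩)
  refine ⟨c, hc, ?_⟩
  rw [h]
  simp

theorem diff_logDeriv (F : ℂ → ℂ) (hd : ∀ z : ℂ, 0 < z.im → DifferentiableAt ℂ F z)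
    (h0 : ∀ z : ℂ, 0 < z.im → F z ≠ 0) : DifferentiableOn ℂ (logDeriv F) {z : ℂ | 0 < z.im} := by
  have ho : IsOpen {z : ℂ | 0 < z.im} := isOpen_lt continuous_const Complex.continuous_im
  have h1 : DifferentiableOn ℂ F {z : ℂ | 0 < z.im} := fun z hz => (hd z hz).differentiableWithinAt
  have h2 : DifferentiableOn ℂ (deriv F) {z : ℂ | 0 < z.im} := h1.deriv ho
  exact h2.div h1 (fun z hz => h0 z hz)

theorem lip (F : ℂ → ℂ) (hd : ∀ z : ℂ, 0 < z.im → DifferentiableAt ℂ F z)
    (h0 : ∀ z : ℂ, 0 < z.im → F z ≠ 0) {t K : ℝ} (ht : 0 < t) (c : ℂ)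
    (hE : ∀ z : ℂ, ‖z - I * t‖ ≤ t / 8 → ‖logDeriv F z - c‖ ≤ K) {u : ℂ} (hu : ‖u‖ ≤ t / 16) :
    ‖logDeriv F (I * t + u) - logDeriv F (I * t)‖ ≤ 16 * K / t * ‖u‖ := by
  have ho : IsOpen {z : ℂ | 0 < z.im} := isOpen_lt continuous_const Complex.continuous_im
  have hD := diff_logDeriv F hd h0
  have him : ∀ z : ℂ, ‖z - I * t‖ ≤ t / 8 → 0 < z.im := by
    intro z hz
    have h1 : |(z - I * t).im| ≤ ‖z - I * t‖ := Complex.abs_im_le_norm _
    have h2 : (z - I * t).im = z.im - t := by simp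
    rw [h2] at h1
    have := neg_abs_le (z.im - t)
    linarith
  have hG : DifferentiableOn ℂ (fun z => logDeriv F z - c) {z : ℂ | 0 < z.im} := hD.sub_const c
  have hdG : ∀ z ∈ closedBall (I * (t : ℂ)) (t / 16), ‖deriv (fun z => logDeriv F z - c) z‖ ≤ 16 * K / t := by
    intro z hz
    rw [mem_closedBall, dist_eq_norm] at hz
    have hR : 0 < t / 16 := by positivity
    have hsub : closedBall z (t / 16) ⊆ {z : ℂ | 0 < z.im} := by
      intro y hy
      rw [mem_closedBall, dist_eq_norm] at hy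
      apply him
      calc ‖y - I * t‖ = ‖(y - z) + (z - I * t)‖ := by ring_nf
        _ ≤ ‖y - z‖ + ‖z - I * t‖ := norm_add_le _ _
        _ ≤ t / 8 := by linarith
    have h1 := Complex.norm_deriv_le_of_forall_mem_sphere_norm_le hR (hG.diffContOnCl_ball hsub)
      (C := K) (by
        intro y hy
        rw [mem_sphere, dist_eq_norm] at hy
        apply hE
        calc ‖y - I * t‖ = ‖(y - z) + (z - I * t)‖ := by ring_nf
          _ ≤ ‖y - z‖ + ‖z - I * t‖ := norm_add_le _ _
          _ ≤ t / 8 := by linarith)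
    refine h1.trans (le_of_eq ?_)
    field_simp
  have hdiff : ∀ z ∈ closedBall (I * (t : ℂ)) (t / 16), DifferentiableAt ℂ (fun z => logDeriv F z - c) z := by
    intro z hz
    rw [mem_closedBall, dist_eq_norm] at hz
    have : 0 < z.im := him z (by linarith)
    exact hG.differentiableAt (ho.mem_nhds this)
  have h2 := (convex_closedBall (I * (t : ℂ)) (t / 16)).norm_image_sub_le_of_norm_deriv_le
    (𝕜 := ℂ) hdiff hdG (x := I * t) (y := I * t + u) (by simp; positivity) (by
      rw [mem_closedBall, dist_eq_norm]; simpa using hu)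
  simpa using h2

end Pool.Agent.H32.BG.Sto
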