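import Pool.Agent.H380.BG.Sti
import Pool.Graph.R_pool_sql_team_seeded_f72693b1.W847.BG.STP
import Pool.Agent.H32.BG.StoGen

set_option autoImplicit false

/-!
# Stirling's formula for one gamma factor, from the digamma function
-/

namespace Pool.Agent.H32.BG.Sto

open Complex MeasureTheory Filter Topology Set Metric
open Pool.Agent.W475.BG
open Pool.Agent.W847.BG (P HH_one)

theorem le_of_log {a b : ℂ} (ha : a ≠ 0) (hb : b ≠ 0) {x : ℝ}
    (h : Real.log ‖a‖ - Real.log ‖b‖ ≤ x) : ‖a‖ ≤ ‖b‖ * Real.exp x := by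
  have h1 : 0 < ‖a‖ := norm_pos_iff.2 ha
  have h2 : 0 < ‖b‖ := norm_pos_iff.2 hb
  calc ‖a‖ = Real.exp (Real.log ‖a‖) := (Real.exp_log h1).symm
    _ ≤ Real.exp (Real.log ‖b‖ + x) := Real.exp_le_exp.2 (by linarith)
    _ = ‖b‖ * Real.exp x := by rw [Real.exp_add, Real.exp_log h2]

/-- the whole package from a bound for the logarithmic derivative -/
theorem pack (F : ℂ → ℂ) (hd : ∀ z : ℂ, 0 < z.im → DifferentiableAt ℂ F z)
    (h0 : ∀ z : ℂ, 0 < z.im → F z ≠ 0) {K1 T1 : ℝ} (hK1 : 1 ≤ K1) (hT1 : 1 ≤ T1)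
    (hE : ∀ t : ℝ, T1 ≤ t → ∀ z : ℂ, ‖z - I * t‖ ≤ t / 8 →
      ‖logDeriv F z - ((Real.log t / 2 : ℝ) : ℂ)‖ ≤ K1)
    (h2 : ∀ t : ℝ, T1 ≤ t → ‖logDeriv F (I * t) - (((Real.log (t / (2 * Real.pi)) / 2 : ℝ) : ℂ) +
      I * ((Real.pi / 4 : ℝ) : ℂ))‖ ≤ K1 / t) : P 1 0 F := by
  set A : ℝ := |Real.log ‖F (I * T1)‖| with hA
  have hA0 : 0 ≤ A := abs_nonneg _
  have hIm : ∀ t : ℝ, T1 ≤ t → ∀ z : ℂ, ‖z - I * t‖ ≤ t / 8 → |(logDeriv F z).im| ≤ K1 := by
    intro t ht z hz
    have h3 := (Complex.abs_im_le_norm _).trans (hE t ht z hz)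
    simpa using h3
  have hRe : ∀ t : ℝ, T1 ≤ t → ∀ z : ℂ, ‖z - I * t‖ ≤ t / 8 →
      |(logDeriv F z).re - Real.log t / 2| ≤ K1 := by
    intro t ht z hz
    have h3 := (Complex.abs_re_le_norm _).trans (hE t ht z hz)
    rw [Complex.sub_re, Complex.ofReal_re] at h3
    exact h3
  refine ⟨256 * K1 + A, T1, by linarith, hT1, ?_⟩
  intro t ht
  have ht1 : 1 ≤ t := hT1.trans ht
  have ht0 : 0 < t := by linarith
  have hz0 : 0 < (I * (t : ℂ)).im := by simpa using ht0
  have hne := h0 _ hz0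
  have him : ∀ u : ℂ, ‖u‖ ≤ t / 8 → 0 < (I * (t : ℂ) + u).im := by
    intro u hu
    have h1 : |u.im| ≤ ‖u‖ := Complex.abs_im_le_norm u
    have h2 := neg_abs_le u.im
    have : (I * (t : ℂ) + u).im = t + u.im := by simp
    rw [this]
    linarith
  have hcu : ∀ c ∈ Ioo (0 : ℝ) 1, ∀ u : ℂ, ‖(c : ℂ) * u‖ ≤ ‖u‖ := by
    intro c hc u
    rw [norm_mul, Complex.norm_real, Real.norm_eq_abs, abs_of_nonneg hc.1.le]
    have := norm_nonneg u
    nlinarith [hc.2]
  refine ⟨hne, ?_, ?_, ?_, ?_, ?_⟩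
  · have h3 := h2 t ht
    have e : ((1 * Real.log (t / (2 * Real.pi)) / 2 + 0 : ℝ) : ℂ) + I * ((1 * Real.pi / 4 : ℝ) : ℂ) =
        ((Real.log (t / (2 * Real.pi)) / 2 : ℝ) : ℂ) + I * ((Real.pi / 4 : ℝ) : ℂ) := by
      rw [one_mul, one_mul, add_zero]
    rw [e]
    refine h3.trans ?_
    apply div_le_div_of_nonneg_right _ ht0.le
    linarith
  · have hzT : 0 < (I * (T1 : ℂ)).im := by
      have : (0 : ℝ) < T1 := by linarith
      simpa using this
    have hne1 := h0 _ hzT
    have e : I * (T1 : ℂ) + I * ((t - T1 : ℝ) : ℂ) = I * (t : ℂ) := by push_cast; ring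
    obtain ⟨c, hc, h3⟩ := seg F hd h0 (z := I * T1) (u := I * ((t - T1 : ℝ) : ℂ)) hzT (by
      rw [e]; exact hz0)
    rw [e] at h3
    have e2 : I * (T1 : ℂ) + (c : ℂ) * (I * ((t - T1 : ℝ) : ℂ)) = I * ((T1 + c * (t - T1) : ℝ) : ℂ) := by
      push_cast; ring
    rw [e2] at h3
    have hT' : T1 ≤ T1 + c * (t - T1) := by
      have := mul_nonneg hc.1.le (sub_nonneg.2 ht)
      linarith
    have h4 := hIm (T1 + c * (t - T1)) hT' (I * ((T1 + c * (t - T1) : ℝ) : ℂ)) (by
      rw [sub_self, norm_zero]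
      have : 0 < T1 + c * (t - T1) := by linarith
      positivity)
    set L := logDeriv F (I * ((T1 + c * (t - T1) : ℝ) : ℂ)) with hL
    have e3 : (L * (I * ((t - T1 : ℝ) : ℂ))).re = -(L.im * (t - T1)) := by
      simp
    rw [e3] at h3
    have h5 : Real.log ‖F (I * T1)‖ - Real.log ‖F (I * t)‖ ≤ K1 * (t - T1) := by
      have : L.im * (t - T1) ≤ K1 * (t - T1) :=
        mul_le_mul_of_nonneg_right ((le_abs_self _).trans h4) (sub_nonneg.2 ht)
      linarith
    have hpos : 0 < ‖F (I * t)‖ := norm_pos_iff.2 hne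
    calc Real.exp (-((256 * K1 + A) * t)) ≤ Real.exp (Real.log ‖F (I * t)‖) := by
          apply Real.exp_le_exp.2
          have h6 : -A ≤ Real.log ‖F (I * T1)‖ := neg_abs_le _
          have h7 : A ≤ A * t := le_mul_of_one_le_right hA0 ht1
          nlinarith
      _ = _ := Real.exp_log hpos
  · intro u hu
    have h3 := him u hu
    refine ⟨h3, hd _ h3, ?_⟩
    apply le_of_log (h0 _ h3) hne
    obtain ⟨c, hc, h4⟩ := seg F hd h0 hz0 h3
    rw [h4]
    have h5 := hcu c hc u
    have h6 := hRe t ht (I * t + c * u) (by simpa using h5.trans hu)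
    have h7 := hIm t ht (I * t + c * u) (by simpa using h5.trans hu)
    set L := logDeriv F (I * t + c * u) with hL
    have e3 : (L * u).re = Real.log t / 2 * u.re + ((L.re - Real.log t / 2) * u.re - L.im * u.im) := by
      rw [Complex.mul_re]
      ring
    rw [e3, one_mul]
    have h8 : (L.re - Real.log t / 2) * u.re ≤ K1 * ‖u‖ := by
      calc _ ≤ |(L.re - Real.log t / 2) * u.re| := le_abs_self _
        _ = |L.re - Real.log t / 2| * |u.re| := abs_mul _ _
        _ ≤ K1 * ‖u‖ := mul_le_mul h6 (Complex.abs_re_le_norm u) (abs_nonneg _) (by linarith)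
    have h9 : -(L.im * u.im) ≤ K1 * ‖u‖ := by
      calc _ ≤ |L.im * u.im| := neg_le_abs _
        _ = |L.im| * |u.im| := abs_mul _ _
        _ ≤ K1 * ‖u‖ := mul_le_mul h7 (Complex.abs_im_le_norm u) (abs_nonneg _) (by linarith)
    have h10 : 0 ≤ ‖u‖ := norm_nonneg u
    have h11 : 0 ≤ A * ‖u‖ := mul_nonneg hA0 h10
    nlinarith
  · intro u hu
    have hun : 0 ≤ ‖u‖ := norm_nonneg u
    have hu2 : 0 ≤ ‖u‖ ^ 2 := by positivity
    have hu1 : 256 * K1 * ‖u‖ ^ 2 ≤ t := by
      have := mul_nonneg hA0 hu2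
      nlinarith
    have hu16 : ‖u‖ ≤ t / 16 := by
      have h3 : ‖u‖ ^ 2 ≤ (t / 16) ^ 2 := by
        have : 256 * ‖u‖ ^ 2 ≤ t := by nlinarith
        nlinarith
      exact (sq_le_sq₀ hun (by positivity)).1 h3
    set ε : ℝ := 16 * K1 * ‖u‖ ^ 2 / t with hε
    have hε0 : 0 ≤ ε := by positivity
    have hε1 : ε ≤ 1 := by
      rw [hε, div_le_one ht0]
      nlinarith
    set b := logDeriv F (I * t) with hb
    have hlip : ∀ v : ℂ, ‖v‖ ≤ ‖u‖ → ‖(logDeriv F (I * t + v) - b) * u‖ ≤ ε := by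
      intro v hv
      have h3 := lip F hd h0 ht0 _ (hE t ht) (hv.trans hu16)
      rw [norm_mul]
      calc ‖logDeriv F (I * t + v) - b‖ * ‖u‖ ≤ (16 * K1 / t * ‖v‖) * ‖u‖ :=
            mul_le_mul_of_nonneg_right h3 hun
        _ ≤ (16 * K1 / t * ‖u‖) * ‖u‖ := by
            apply mul_le_mul_of_nonneg_right _ hun
            apply mul_le_mul_of_nonneg_left hv
            positivity
        _ = ε := by rw [hε]; ring
    have hsu : ∀ s ∈ Icc (0 : ℝ) 1, ‖(s : ℂ) * u‖ ≤ ‖u‖ := by
      intro s hs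
      rw [norm_mul, Complex.norm_real, Real.norm_eq_abs, abs_of_nonneg hs.1]
      nlinarith [hs.2]
    have hpos : ∀ s ∈ Icc (0 : ℝ) 1, 0 < (I * (t : ℂ) + (s : ℂ) * u).im := by
      intro s hs
      exact him _ ((hsu s hs).trans (by linarith))
    set φ : ℝ → ℂ := fun s => F (I * t + (s : ℂ) * u) * cexp (-(b * u) * (s : ℂ)) with hφ
    have hder : ∀ s ∈ Icc (0 : ℝ) 1, HasDerivAt φ
        (φ s * ((logDeriv F (I * t + (s : ℂ) * u) - b) * u)) s := by
      intro s hs
      have h1 := (hd _ (hpos s hs)).hasDerivAt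
      have h2 : HasDerivAt (fun s : ℝ => (s : ℂ)) 1 s := Complex.ofRealCLM.hasDerivAt
      have h3 : HasDerivAt (fun s : ℝ => I * (t : ℂ) + (s : ℂ) * u) u s := by
        simpa using (h2.mul_const u).const_add (I * (t : ℂ))
      have h4 : HasDerivAt (fun s : ℝ => F (I * t + (s : ℂ) * u)) (deriv F (I * t + (s : ℂ) * u) * u) s :=
        HasDerivAt.comp_of_eq (x := s) (h₂ := F) (h := fun s : ℝ => I * (t : ℂ) + (s : ℂ) * u) h1 h3 rfl
      have h5 : HasDerivAt (fun s : ℝ => cexp (-(b * u) * (s : ℂ)))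
          (cexp (-(b * u) * (s : ℂ)) * (-(b * u) * 1)) s := (h2.const_mul (-(b * u))).cexp
      refine (h4.mul h5).congr_deriv ?_
      have hF := h0 _ (hpos s hs)
      simp only [hφ]
      rw [logDeriv_apply]
      field_simp
      ring
    have hbd : ∀ s ∈ Icc (0 : ℝ) 1, ‖φ s‖ ≤ ‖F (I * t)‖ * 3 := by
      intro s hs
      obtain ⟨c, hc, h4⟩ := seg F hd h0 hz0 (hpos s hs)
      have h5 : ‖(c : ℂ) * ((s : ℂ) * u)‖ ≤ ‖u‖ := (hcu c hc _).trans (hsu s hs)
      have h6 := hlip _ h5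
      set L := logDeriv F (I * t + (c : ℂ) * ((s : ℂ) * u)) with hL
      have e4 : (L * ((s : ℂ) * u)).re = s * (b * u).re + s * ((L - b) * u).re := by
        have : L * ((s : ℂ) * u) = (s : ℂ) * (b * u) + (s : ℂ) * ((L - b) * u) := by ring
        rw [this, Complex.add_re, Complex.re_ofReal_mul, Complex.re_ofReal_mul]
      have h7 : s * ((L - b) * u).re ≤ 1 := by
        have h8 : ((L - b) * u).re ≤ ε := (Complex.re_le_norm _).trans h6
        calc s * ((L - b) * u).re ≤ s * ε := mul_le_mul_of_nonneg_left h8 hs.1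
          _ ≤ 1 * 1 := mul_le_mul hs.2 hε1 hε0 zero_le_one
          _ = 1 := one_mul 1
      have h9 : ‖F (I * t + (s : ℂ) * u)‖ ≤ ‖F (I * t)‖ * Real.exp (s * (b * u).re + 1) := by
        apply le_of_log (h0 _ (hpos s hs)) hne
        rw [h4, e4]
        linarith
      have h10 : ‖cexp (-(b * u) * (s : ℂ))‖ = Real.exp (-(s * (b * u).re)) := by
        rw [Complex.norm_exp, mul_comm, Complex.re_ofReal_mul, Complex.neg_re]
        congr 1
        ring
      have h11 : Real.exp 1 ≤ 3 := by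
        have := Real.exp_one_lt_d9
        linarith
      calc ‖φ s‖ = ‖F (I * t + (s : ℂ) * u)‖ * Real.exp (-(s * (b * u).re)) := by
            simp only [hφ]
            rw [norm_mul, h10]
        _ ≤ (‖F (I * t)‖ * Real.exp (s * (b * u).re + 1)) * Real.exp (-(s * (b * u).re)) :=
            mul_le_mul_of_nonneg_right h9 (Real.exp_pos _).le
        _ = ‖F (I * t)‖ * (Real.exp (s * (b * u).re + 1) * Real.exp (-(s * (b * u).re))) := by ring
        _ = ‖F (I * t)‖ * Real.exp 1 := by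
            rw [← Real.exp_add]
            congr 2
            ring
        _ ≤ ‖F (I * t)‖ * 3 := mul_le_mul_of_nonneg_left h11 (norm_nonneg _)
    have hmv : ‖φ 1 - φ 0‖ ≤ (‖F (I * t)‖ * 3 * ε) * ‖(1 : ℝ) - 0‖ := by
      refine (convex_Icc (0 : ℝ) 1).norm_image_sub_le_of_norm_hasDerivWithin_le
        (fun s hs => (hder s hs).hasDerivWithinAt) (fun s hs => ?_) (by simp) (by simp)
      rw [norm_mul]
      exact mul_le_mul (hbd s hs) (hlip _ (hsu s hs)) (norm_nonneg _) (by positivity)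
    rw [sub_zero, norm_one, mul_one] at hmv
    have hφ0 : φ 0 = F (I * t) := by simp [hφ]
    have hφ1 : φ 1 = F (I * t + u) * cexp (-(b * u)) := by simp [hφ]
    rw [hφ0, hφ1] at hmv
    have e5 : F (I * t + u) - F (I * t) * cexp (b * u) =
        (F (I * t + u) * cexp (-(b * u)) - F (I * t)) * cexp (b * u) := by
      rw [sub_mul, mul_assoc, ← Complex.exp_add, neg_add_cancel, Complex.exp_zero, mul_one]
    rw [e5, norm_mul, norm_mul]
    have hc0 : 0 ≤ ‖cexp (b * u)‖ := norm_nonneg _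
    calc ‖F (I * t + u) * cexp (-(b * u)) - F (I * t)‖ * ‖cexp (b * u)‖
        ≤ (‖F (I * t)‖ * 3 * ε) * ‖cexp (b * u)‖ := mul_le_mul_of_nonneg_right hmv hc0
      _ = (48 * K1 * ‖u‖ ^ 2 / t) * (‖F (I * t)‖ * ‖cexp (b * u)‖) := by rw [hε]; ring
      _ ≤ ((256 * K1 + A) * ‖u‖ ^ 2 / t) * (‖F (I * t)‖ * ‖cexp (b * u)‖) := by
          apply mul_le_mul_of_nonneg_right _ (by positivity)
          apply div_le_div_of_nonneg_right _ ht0.le
          apply mul_le_mul_of_nonneg_right _ hu2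
          linarith
  · intro h hh
    have hn : ‖I * (h : ℂ)‖ = |h| := by
      rw [norm_mul, norm_I, one_mul, Complex.norm_real, Real.norm_eq_abs]
    have hh8 : ‖I * (h : ℂ)‖ ≤ t / 8 := by rw [hn]; linarith
    have h3 := him _ hh8
    have e : I * ((t + h : ℝ) : ℂ) = I * (t : ℂ) + I * (h : ℂ) := by push_cast; ring
    rw [e]
    obtain ⟨c, hc, h4⟩ := seg F hd h0 hz0 h3
    have h7 := hIm t ht (I * t + c * (I * (h : ℂ))) (by
      simpa using (hcu c hc (I * (h : ℂ))).trans hh8)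
    set L := logDeriv F (I * t + c * (I * (h : ℂ))) with hL
    have e3 : (L * (I * (h : ℂ))).re = -(L.im * h) := by
      simp
    rw [e3] at h4
    have h8 : |L.im * h| ≤ K1 * |h| := by
      rw [abs_mul]
      exact mul_le_mul_of_nonneg_right h7 (abs_nonneg _)
    have h9 : K1 * |h| ≤ (256 * K1 + A) * |h| :=
      mul_le_mul_of_nonneg_right (by linarith) (abs_nonneg _)
    have h10 := abs_le.1 h8
    constructor
    · apply le_of_log hne (h0 _ h3)
      linarith [h10.1, h10.2]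
    · apply le_of_log (h0 _ h3) hne
      linarith [h10.1, h10.2]

/-! ## The gamma factor -/

/-- the argument of the gamma function -/
noncomputable def ww (m : ℝ) (z : ℂ) : ℂ := (1 / 2 + z + m) / 2

theorem ww_im (m : ℝ) (z : ℂ) : (ww m z).im = z.im / 2 := by
  unfold ww
  have h : (1 / 2 + z + (m : ℂ)) / 2 = ((1 / 2 : ℝ) : ℂ) * (((1 / 2 : ℝ) : ℂ) + z + (m : ℂ)) := by
    push_cast
    ring
  rw [h, Complex.im_ofReal_mul]
  simp
  ring

theorem ww_re (m : ℝ) (z : ℂ) : (ww m z).re = (1 / 2 + z.re + m) / 2 := by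
  unfold ww
  have h : (1 / 2 + z + (m : ℂ)) / 2 = ((1 / 2 : ℝ) : ℂ) * (((1 / 2 : ℝ) : ℂ) + z + (m : ℂ)) := by
    push_cast
    ring
  rw [h, Complex.re_ofReal_mul]
  simp
  ring

theorem ww_ne {m : ℝ} {z : ℂ} (hz : 0 < z.im) (n : ℕ) : ww m z ≠ -n := by
  intro h
  have h1 := ww_im m z
  rw [h] at h1
  simp at h1
  linarith

/-- the gamma factor -/
noncomputable def FF (m : ℝ) (z : ℂ) : ℂ := Gammaℝ (1 / 2 + z + m)

theorem FF_ne {m : ℝ} {z : ℂ} (hz : 0 < z.im) : FF m z ≠ 0 := by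
  unfold FF
  rw [Complex.Gammaℝ_def]
  refine mul_ne_zero ?_ (Complex.Gamma_ne_zero (ww_ne (m := m) hz))
  exact (Complex.cpow_ne_zero_iff).2 (Or.inl (by exact_mod_cast Real.pi_ne_zero))

theorem FF_der {m : ℝ} {z : ℂ} (hz : 0 < z.im) :
    HasDerivAt (FF m) ((-(Real.log Real.pi : ℂ) / 2 + logDeriv Gamma (ww m z) / 2) * FF m z) z := by
  have hG0 : Gamma (ww m z) ≠ 0 := Complex.Gamma_ne_zero (ww_ne (m := m) hz)
  have hG : HasDerivAt Gamma (logDeriv Gamma (ww m z) * Gamma (ww m z)) (ww m z) := by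
    have h2 := (Complex.differentiableAt_Gamma _ (ww_ne (m := m) hz)).hasDerivAt
    rwa [logDeriv_apply, div_mul_cancel₀ _ hG0]
  have hw : HasDerivAt (ww m) (1 / 2) z := by
    unfold ww
    exact (((hasDerivAt_id z).const_add (1 / 2 : ℂ)).add_const (m : ℂ)).div_const 2
  have h1 : HasDerivAt (fun z => Gamma (ww m z)) (logDeriv Gamma (ww m z) * Gamma (ww m z) * (1 / 2)) z :=
    hG.comp z hw
  have hpi : (Real.pi : ℂ) ≠ 0 := by exact_mod_cast Real.pi_ne_zero
  have h2 : HasDerivAt (fun z : ℂ => (Real.pi : ℂ) ^ (-(ww m z)))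
      ((Real.pi : ℂ) ^ (-(ww m z)) * log (Real.pi : ℂ) * (-(1 / 2))) z :=
    hw.neg.const_cpow (c := (Real.pi : ℂ)) (Or.inl hpi)
  have h4 := h2.mul h1
  have e : FF m = fun z => (Real.pi : ℂ) ^ (-(ww m z)) * Gamma (ww m z) := by
    funext y
    unfold FF ww
    rw [Complex.Gammaℝ_def, neg_div]
  rw [e]
  refine h4.congr_deriv ?_
  rw [Complex.ofReal_log Real.pi_pos.le]
  ring

theorem FF_ld {m : ℝ} {z : ℂ} (hz : 0 < z.im) :
    logDeriv (FF m) z = -(Real.log Real.pi : ℂ) / 2 + logDeriv Gamma (ww m z) / 2 := by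
  rw [logDeriv_apply, (FF_der hz).deriv, mul_div_assoc, div_self (FF_ne hz), mul_one]

theorem log_lip {a b : ℂ} {m : ℝ} (hm : 0 < m) (ha : m ≤ a.im) (hb : m ≤ b.im) :
    ‖log a - log b‖ ≤ 1 / m * ‖a - b‖ := by
  have hc : Convex ℝ {z : ℂ | m ≤ z.im} := by
    have : {z : ℂ | m ≤ z.im} = Complex.imCLM ⁻¹' (Ici m) := rfl
    rw [this]
    exact (convex_Ici m).is_linear_preimage Complex.imCLM.isLinear
  refine hc.norm_image_sub_le_of_norm_hasDerivWithin_le (f := log) (f' := fun z => z⁻¹)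
    (fun z hz => ?_) (fun z hz => ?_) hb ha
  · refine (Complex.hasDerivAt_log ?_).hasDerivWithinAt
    right
    have : m ≤ z.im := hz
    intro h
    rw [h] at this
    linarith
  · rw [norm_inv, one_div]
    have h1 : m ≤ ‖z‖ := by
      have h2 : m ≤ z.im := hz
      exact h2.trans ((le_abs_self _).trans (Complex.abs_im_le_norm z))
    exact inv_anti₀ hm h1

theorem t_STO (h : Pool.Agent.H380.BG.S_PSI) : Pool.Agent.H380.BG.S_STO := by
  obtain ⟨C, hC, hpsi⟩ := h
  intro m hm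
  have key : P 1 0 (FF m) := by
    set T1 : ℝ := 16 + 4 * m with hT1
    have hlp : 0 ≤ Real.log Real.pi := Real.log_nonneg (by linarith [Real.pi_gt_three])
    refine pack (FF m) (fun z hz => (FF_der hz).differentiableAt) (fun z hz => FF_ne hz)
      (K1 := Real.log Real.pi + 2 * C + 10 + m) (T1 := T1) (by linarith) (by linarith) ?_ ?_
    · intro t ht z hz
      have ht0 : 16 ≤ t := by linarith
      have hzi : |z.im - t| ≤ t / 8 := by
        have h1 : |(z - I * t).im| ≤ ‖z - I * t‖ := Complex.abs_im_le_norm _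
        have h2 : (z - I * t).im = z.im - t := by simp
        rw [h2] at h1
        exact h1.trans hz
      have hzr : |z.re| ≤ t / 8 := by
        have h1 : |(z - I * t).re| ≤ ‖z - I * t‖ := Complex.abs_re_le_norm _
        have h2 : (z - I * t).re = z.re := by simp
        rw [h2] at h1
        exact h1.trans hz
      have h3 := abs_le.1 hzi
      have h4 := abs_le.1 hzr
      have hzim : 0 < z.im := by linarith
      have hwi : 7 * t / 16 ≤ (ww m z).im := by rw [ww_im]; linarith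
      have hwi2 : (ww m z).im ≤ 9 * t / 16 := by rw [ww_im]; linarith
      have hwr : -(t / 16) ≤ (ww m z).re := by rw [ww_re]; linarith
      have hwr2 : (ww m z).re ≤ 3 * t / 16 := by rw [ww_re]; linarith
      have hwn : 7 * t / 16 ≤ ‖ww m z‖ :=
        hwi.trans ((le_abs_self _).trans (Complex.abs_im_le_norm _))
      have hwn2 : ‖ww m z‖ ≤ t := by
        refine (Complex.norm_le_abs_re_add_abs_im _).trans ?_
        have h5 : |(ww m z).re| ≤ 3 * t / 16 := abs_le.2 ⟨by linarith, hwr2⟩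
        have h6 : |(ww m z).im| ≤ 9 * t / 16 := abs_le.2 ⟨by linarith, hwi2⟩
        linarith
      have h5 := hpsi (ww m z) (by linarith) (by linarith)
      have h6 : C / ‖ww m z‖ ≤ C := div_le_self hC.le (by linarith)
      have h7 : ‖log (ww m z) - ((Real.log t : ℝ) : ℂ)‖ ≤ 5 := by
        refine (Complex.norm_le_abs_re_add_abs_im _).trans ?_
        rw [Complex.sub_re, Complex.sub_im, Complex.ofReal_re, Complex.ofReal_im, sub_zero,
          Complex.log_re, Complex.log_im]
        have h8 : |arg (ww m z)| ≤ 4 := (Complex.abs_arg_le_pi _).trans (by linarith [Real.pi_lt_d2])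
        have h9 : |Real.log ‖ww m z‖ - Real.log t| ≤ 1 := by
          have hpos : 0 < ‖ww m z‖ := by linarith
          have ht0' : 0 < t := by linarith
          rw [← Real.log_div hpos.ne' ht0'.ne', abs_le]
          constructor
          · rw [Real.le_log_iff_exp_le (by positivity)]
            have h10 : Real.exp (-1) ≤ 7 / 16 := by
              rw [Real.exp_neg]
              have := Real.exp_one_gt_d9
              rw [inv_le_comm₀ (Real.exp_pos _) (by norm_num)]
              linarith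
            refine h10.trans ?_
            rw [le_div_iff₀ ht0']
            linarith
          · refine (Real.log_nonpos (by positivity) ?_).trans zero_le_one
            rw [div_le_one ht0']
            exact hwn2
        linarith
      rw [FF_ld hzim]
      have e : -(Real.log Real.pi : ℂ) / 2 + logDeriv Gamma (ww m z) / 2 - ((Real.log t / 2 : ℝ) : ℂ) =
          (1 / 2 : ℂ) * (-((Real.log Real.pi : ℝ) : ℂ) + ((logDeriv Gamma (ww m z) - log (ww m z)) +
            (log (ww m z) - ((Real.log t : ℝ) : ℂ)))) := by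
        push_cast
        ring
      rw [e, norm_mul]
      have h8 : ‖(1 / 2 : ℂ)‖ = 1 / 2 := by simp
      rw [h8]
      have h9 : ‖-((Real.log Real.pi : ℝ) : ℂ) + ((logDeriv Gamma (ww m z) - log (ww m z)) +
            (log (ww m z) - ((Real.log t : ℝ) : ℂ)))‖ ≤ Real.log Real.pi + (C + 5) := by
        refine (norm_add_le _ _).trans (add_le_add ?_ ((norm_add_le _ _).trans (add_le_add ?_ h7)))
        · rw [norm_neg, Complex.norm_real, Real.norm_eq_abs, abs_of_nonneg hlp]
        · exact h5.trans h6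
      linarith
    · intro t ht
      have ht0 : 16 ≤ t := by linarith
      have ht0' : 0 < t := by linarith
      have hzim : 0 < (I * (t : ℂ)).im := by simpa using ht0'
      have hwi : (ww m (I * t)).im = t / 2 := by rw [ww_im]; simp
      have hwr : (ww m (I * t)).re = (1 / 2 + m) / 2 := by rw [ww_re]; simp
      have hwn : t / 2 ≤ ‖ww m (I * t)‖ := by
        rw [← hwi]
        exact (le_abs_self _).trans (Complex.abs_im_le_norm _)
      have h5 := hpsi (ww m (I * t)) (by rw [hwi]; linarith) (by rw [hwi, hwr]; linarith)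
      have h6 : C / ‖ww m (I * t)‖ ≤ 2 * C / t := by
        calc C / ‖ww m (I * t)‖ ≤ C / (t / 2) := div_le_div_of_nonneg_left hC.le (by linarith) hwn
          _ = _ := by field_simp
      have h7 : ‖log (ww m (I * t)) - log (I * ((t / 2 : ℝ) : ℂ))‖ ≤ (1 / 2 + m) / t := by
        refine (log_lip (m := t / 2) (by linarith) (by rw [hwi]) (by simp)).trans ?_
        have e1 : ww m (I * t) - I * ((t / 2 : ℝ) : ℂ) = (((1 / 2 + m) / 2 : ℝ) : ℂ) := by
          unfold ww
          push_cast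
          ring
        rw [e1, Complex.norm_real, Real.norm_eq_abs, abs_of_nonneg (by linarith)]
        apply le_of_eq
        field_simp
      have h8 : log (I * ((t / 2 : ℝ) : ℂ)) = ((Real.log (t / 2) : ℝ) : ℂ) + I * ((Real.pi / 2 : ℝ) : ℂ) := by
        rw [mul_comm, Complex.log_ofReal_mul (by linarith) I_ne_zero, Complex.log_I]
        push_cast
        ring
      rw [FF_ld hzim]
      have h9 : Real.log (t / (2 * Real.pi)) = Real.log (t / 2) - Real.log Real.pi := by
        rw [← div_div, Real.log_div (by linarith) Real.pi_ne_zero]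
      have e : -(Real.log Real.pi : ℂ) / 2 + logDeriv Gamma (ww m (I * t)) / 2 -
          (((Real.log (t / (2 * Real.pi)) / 2 : ℝ) : ℂ) + I * ((Real.pi / 4 : ℝ) : ℂ)) =
          (1 / 2 : ℂ) * ((logDeriv Gamma (ww m (I * t)) - log (ww m (I * t))) +
            (log (ww m (I * t)) - log (I * ((t / 2 : ℝ) : ℂ)))) := by
        rw [h8, h9]
        push_cast
        ring
      rw [e, norm_mul]
      have h10 : ‖(1 / 2 : ℂ)‖ = 1 / 2 := by simp
      rw [h10]
      have h11 : ‖(logDeriv Gamma (ww m (I * t)) - log (ww m (I * t))) +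
            (log (ww m (I * t)) - log (I * ((t / 2 : ℝ) : ℂ)))‖ ≤ 2 * C / t + (1 / 2 + m) / t :=
        (norm_add_le _ _).trans (add_le_add (h5.trans h6) h7)
      have h12 : 2 * C / t + (1 / 2 + m) / t = (2 * C + (1 / 2 + m)) / t := by ring
      rw [h12] at h11
      have h13 : (2 * C + (1 / 2 + m)) / t ≤ (Real.log Real.pi + 2 * C + 10 + m) / t :=
        div_le_div_of_nonneg_right (by linarith) ht0'.le
      have h14 : 0 ≤ (2 * C + (1 / 2 + m)) / t := by positivity
      linarith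
  have e1 : (((one m).d : ℕ) : ℝ) = 1 := by simp [one]
  have e2 : Real.log (one m).Q = 0 := by simp [one]
  unfold S_STIR be
  rw [HH_one, e1, e2]
  exact key

end Pool.Agent.H32.BG.Sto
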